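import Mathlib
import Pool.Agent.Lib.MP_87d05f_lc.DI.Asm
import Pool.Agent.Lib.MP_87d05f_lc.SP.Asm
import Pool.Agent.Lib.MP_87d05f_lc.DG.Asm
import Pool.Agent.Lib.MP_87d05f_lc.CC.Asm

set_option autoImplicit false

/-!
# Gap-ETH and the dichotomy for finite payoff languages

The deterministic gap-ETH is equivalent to the following statement: for EVERY language of payoff
functions on a finite domain without symmetric binary fractional polymorphism there are `ε` and `K`
such that for every `g`, for some `b`, no machine approximates within `1 - ε`, in time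
`2 ^ ⌊m / b⌋`, the maximum value of the instances with `m` constraints in which every variable
occurs at most `K` times and whose incidence graph has girth more than `g`.  It is also equivalent
to the statement that for SOME language, for some `ε` and `b`, the maximum value of arbitrary
instances with `n` variables cannot be approximated within `1 - ε` in time `2 ^ ⌊n / b⌋`, even if
the instances come with symmetric side constraints: pairwise disjoint sets of variables, each with
a list of permitted vectors (number of variables with value `0`, number with value `1`, ...); for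
instance maximum bisection and the densest subgraph with `k` vertices.
-/

namespace Pool.Agent.Results.MP_87d05f_lc.Dichotomy

/-- Exponential separators for a promise problem with instances `I`: the instances satisfying
`valid` are given by `code`; those satisfying `yes` must be accepted and those satisfying `no`
rejected within `C (L + 1) ^ e * 2 ^ (μ F / b)` steps, `L` being the length of the code. -/
def Separator {I : Type} (code : I → List Bool) (valid yes no : I → Prop) (μ : I → ℕ)
    (b : ℕ) : Prop :=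
  ∃ C e : ℕ, ∃ tm : Turing.FinTM2, ∃ e₀ : tm.Γ tm.k₀ ≃ Bool,
    ∃ acc rej : List (tm.Γ tm.k₁), acc ≠ rej ∧
    ∀ F : I, valid F →
      (yes F → Nonempty (Turing.TM2OutputsInTime tm ((code F).map e₀.symm) (some acc)
        (C * ((code F).length + 1) ^ e * 2 ^ (μ F / b)))) ∧
      (no F → Nonempty (Turing.TM2OutputsInTime tm ((code F).map e₀.symm) (some rej)
        (C * ((code F).length + 1) ^ e * 2 ^ (μ F / b))))

/-! ### 3-CNF formulas: the statement of the problem -/

/-- the encoding of formulas fixed in the problem -/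
def satCode (F : List (List (Bool × ℕ))) : List Bool :=
  F.flatMap (fun c => c.flatMap (fun l => [true, l.1] ++
    (Nat.bits l.2).flatMap (fun x => [true, x]) ++ [false, false]) ++ [false, true])

/-- the number of variables of a formula -/
def satVars (F : List (List (Bool × ℕ))) : ℕ := (F.flatten.map (fun l => l.2)).toFinset.card

/-- `(ε, b)` admits an exponential separator, as in the problem -/
def SatSeparator (ε : ℚ) (b : ℕ) : Prop :=
  Separator satCode (fun F => F ≠ [] ∧ ∀ c ∈ F, c.length ≤ 3)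
    (fun F => ∃ a : ℕ → Bool, ∀ c ∈ F, ∃ l ∈ c, a l.2 = l.1)
    (fun F => ∀ a : ℕ → Bool, ε * (F.length : ℚ) ≤
      ((F.countP (fun c => !(c.any (fun l => a l.2 == l.1))) : ℕ) : ℚ)) satVars b

/-- the statement Q1 of the problem -/
def SatHard : Prop := ∃ ε : ℚ, 0 < ε ∧ ε < 1 ∧ ∃ b : ℕ, 0 < b ∧ ¬ SatSeparator ε b

/-- the code of a list of lists of binary words -/
def wordsCode (G : List (List (List Bool))) : List Bool :=
  G.flatMap (fun c => c.flatMap (fun w => w.flatMap (fun x => [true, x]) ++ [false, false]) ++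
    [false, true])

/-! ### Languages of payoff functions -/

section payoff

variable {d g : ℕ} {ar : Fin g → ℕ}

/-- a constraint: a symbol `i` with a list of `ar i` variables -/
abbrev Constraint (ar : Fin g → ℕ) : Type := (i : Fin g) × (Fin (ar i) → ℕ)

/-- the value of an assignment: the sum of the payoffs of the constraints -/
def value (φ : (i : Fin g) → (Fin (ar i) → Fin d) → ℕ) (a : ℕ → Fin d)
    (F : List (Constraint ar)) : ℕ := (F.map (fun c => φ c.1 (fun j => a (c.2 j)))).sum

/-- the words of a constraint: the symbol and the variables in binary -/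
def conWords (c : Constraint ar) : List (List Bool) :=
  Nat.bits (c.1 : ℕ) :: (List.ofFn c.2).map Nat.bits

/-- a threshold (in unary) and an instance -/
def thrCode (I : ℕ × List (Constraint ar)) : List Bool :=
  wordsCode ([List.replicate I.1 true] :: I.2.map conWords)

/-- The incidence graph of an instance: the position `q` of a constraint in the list is joined to
the variables of this constraint. -/
def incidence (F : List (Constraint ar)) : SimpleGraph (ℕ ⊕ ℕ) :=
  SimpleGraph.fromRel (fun x y => ∃ q v c, x = Sum.inl q ∧ y = Sum.inr v ∧ F[q]? = some c ∧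
    v ∈ List.ofFn c.2)

/-- every variable has at most `K` occurrences (over all places of all constraints) and the
incidence graph has girth more than `r` -/
def Sparse (K r : ℕ) (F : List (Constraint ar)) : Prop :=
  (∀ v, (F.flatMap (fun c => List.ofFn c.2)).count v ≤ K) ∧ (r : ℕ∞) < (incidence F).egirth

/-- Separator for the maximum value of the instances in the class `V`: accept if some assignment
has value at least `t`, reject if all assignments have value less than `(1 - ε) t`, in time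
`C (L + 1) ^ e * 2 ^ (μ F / b)`. -/
def MaxSeparator (V : List (Constraint ar) → Prop) (μ : List (Constraint ar) → ℕ)
    (φ : (i : Fin g) → (Fin (ar i) → Fin d) → ℕ) (ε : ℚ) (b : ℕ) : Prop :=
  Separator (thrCode (ar := ar)) (fun I => V I.2)
    (fun I => ∃ a : ℕ → Fin d, I.1 ≤ value φ a I.2)
    (fun I => ∀ a : ℕ → Fin d, (value φ a I.2 : ℚ) < (1 - ε) * (I.1 : ℚ))
    (fun I => μ I.2) b

/-- the values of all places of an instance, in unary -/
def valuesCode (F : List (Constraint ar)) (a : ℕ → Fin d) : List Bool :=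
  F.flatMap (fun c => (List.ofFn c.2).flatMap (fun v => List.replicate (a v : ℕ) true ++ [false]))

/-- A deterministic machine computes, for every instance in the class `V`, an assignment `a` (the
values of all places) with value at least `(1 - ε)` times the maximum, in time
`C (L + 1) ^ e * 2 ^ (μ F / b)`. -/
def FindsNearOptimal (V : List (Constraint ar) → Prop) (μ : List (Constraint ar) → ℕ)
    (φ : (i : Fin g) → (Fin (ar i) → Fin d) → ℕ) (ε : ℚ) (b : ℕ) : Prop :=
  ∃ C e : ℕ, ∃ tm : Turing.FinTM2, ∃ e₀ : tm.Γ tm.k₀ ≃ Bool, ∃ e₁ : tm.Γ tm.k₁ ≃ Bool,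
    ∀ F : List (Constraint ar), V F → ∃ a : ℕ → Fin d,
      (∀ a' : ℕ → Fin d, (1 - ε) * (value φ a' F : ℚ) ≤ (value φ a F : ℚ)) ∧
      Nonempty (Turing.TM2OutputsInTime tm ((wordsCode (F.map conWords)).map e₀.symm)
        (some ((valuesCode F a).map e₁.symm))
        (C * ((wordsCode (F.map conWords)).length + 1) ^ e * 2 ^ (μ F / b)))

/-- hardness with a threshold and hardness of the search problem in time `2 ^ (m / b)`, `m` the
number of constraints, on instances with bounded occurrence and arbitrarily large girth -/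
def SparseHard (φ : (i : Fin g) → (Fin (ar i) → Fin d) → ℕ) : Prop :=
  ∃ ε : ℚ, 0 < ε ∧ ε < 1 ∧ ∃ K : ℕ, ∀ r : ℕ, ∃ b : ℕ, 0 < b ∧
    ¬ MaxSeparator (Sparse K r) List.length φ ε b ∧
    ¬ FindsNearOptimal (Sparse K r) List.length φ ε b

/-! #### Symmetric side constraints -/

/-- a set of variables and its permitted vectors -/
abbrev SideConstraint : Type := List ℕ × List (List ℕ)

/-- The sets are pairwise disjoint (and written without repetition), and every side constraint
permits a vector of length `d` with the right sum, so all of them can be obeyed. -/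
def Proper (d : ℕ) (P : List SideConstraint) : Prop :=
  (P.flatMap Prod.fst).Nodup ∧ ∀ p ∈ P, ∃ c ∈ p.2, c.length = d ∧ c.sum = p.1.length

/-- for every set the vector (number of its variables with value `0`, with value `1`, ...) is
permitted -/
def Obeys (a : ℕ → Fin d) (P : List SideConstraint) : Prop :=
  ∀ p ∈ P, List.ofFn (fun k : Fin d => p.1.countP (fun v => decide (a v = k))) ∈ p.2

/-- the words of a side constraint: the number of permitted vectors in unary and the variables in
binary, then the vectors with entries in unary -/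
def sideWords (p : SideConstraint) : List (List (List Bool)) :=
  (List.replicate p.2.length true :: p.1.map Nat.bits) ::
    p.2.map (fun c => c.map (fun k => List.replicate k true))

/-- instances with side constraints; the number of side constraints comes first, in unary -/
def sideCode (I : List SideConstraint × List (Constraint ar)) : List Bool :=
  wordsCode ([List.replicate I.1.length true] :: (I.1.flatMap sideWords ++ I.2.map conWords))

/-- the same with a threshold in unary -/
def sideThrCode (I : ℕ × (List SideConstraint × List (Constraint ar))) : List Bool :=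
  wordsCode ([List.replicate I.1 true, List.replicate I.2.1.length true] ::
    (I.2.1.flatMap sideWords ++ I.2.2.map conWords))

/-- all variables of the sets and of the constraints, with repetitions -/
def sideList (I : List SideConstraint × List (Constraint ar)) : List ℕ :=
  I.1.flatMap Prod.fst ++ I.2.flatMap (fun c => List.ofFn c.2)

/-- the number of variables -/
def sideVars (I : List SideConstraint × List (Constraint ar)) : ℕ := (sideList I).toFinset.card

/-- Separator for the maximum value under side constraints: accept if some obeying assignment has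
value at least `t`, reject if all obeying assignments have value less than `(1 - ε) t`, in time
`C (L + 1) ^ e * 2 ^ (n / b)`, `n` the number of variables. -/
def SideSeparator (φ : (i : Fin g) → (Fin (ar i) → Fin d) → ℕ) (ε : ℚ) (b : ℕ) : Prop :=
  Separator (sideThrCode (ar := ar)) (fun I => Proper d I.2.1)
    (fun I => ∃ a : ℕ → Fin d, Obeys a I.2.1 ∧ I.1 ≤ value φ a I.2.2)
    (fun I => ∀ a : ℕ → Fin d, Obeys a I.2.1 → (value φ a I.2.2 : ℚ) < (1 - ε) * (I.1 : ℚ))
    (fun I => sideVars I.2) b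

/-- A deterministic machine computes an obeying assignment `a` (the values at `sideList I`, in
unary) with value at least `(1 - ε)` times the maximum over the obeying assignments, in time
`C (L + 1) ^ e * 2 ^ (n / b)`. -/
def SideFinds (φ : (i : Fin g) → (Fin (ar i) → Fin d) → ℕ) (ε : ℚ) (b : ℕ) : Prop :=
  ∃ C e : ℕ, ∃ tm : Turing.FinTM2, ∃ e₀ : tm.Γ tm.k₀ ≃ Bool, ∃ e₁ : tm.Γ tm.k₁ ≃ Bool,
    ∀ I : List SideConstraint × List (Constraint ar), Proper d I.1 → ∃ a : ℕ → Fin d,
      Obeys a I.1 ∧ (∀ a' : ℕ → Fin d, Obeys a' I.1 →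
        (1 - ε) * (value φ a' I.2 : ℚ) ≤ (value φ a I.2 : ℚ)) ∧
      Nonempty (Turing.TM2OutputsInTime tm ((sideCode I).map e₀.symm)
        (some (((sideList I).flatMap (fun v => List.replicate (a v : ℕ) true ++ [false])).map
          e₁.symm))
        (C * ((sideCode I).length + 1) ^ e * 2 ^ (sideVars I / b)))

/-- hardness with a threshold in time `2 ^ (n / b)`, `n` the number of variables, on arbitrary
instances with symmetric side constraints -/
def SideHard (φ : (i : Fin g) → (Fin (ar i) → Fin d) → ℕ) : Prop :=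
  ∃ ε : ℚ, 0 < ε ∧ ε < 1 ∧ ∃ b : ℕ, 0 < b ∧ ¬ SideSeparator φ ε b

/-- the same for the search problem -/
def SideSearchHard (φ : (i : Fin g) → (Fin (ar i) → Fin d) → ℕ) : Prop :=
  ∃ ε : ℚ, 0 < ε ∧ ε < 1 ∧ ∃ b : ℕ, 0 < b ∧ ¬ SideFinds φ ε b

/-- There is a symmetric binary fractional polymorphism: a probability distribution `ω` on the
commutative binary operations of the domain such that, for every payoff function and all lists
`x`, `y` of arguments, the expected payoff of `g (x, y)` (taken in each coordinate) is at least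
the average of the payoffs of `x` and `y`. -/
def HasSymmetricFractionalPolymorphism (φ : (i : Fin g) → (Fin (ar i) → Fin d) → ℕ) : Prop :=
  ∃ ω : (Fin d → Fin d → Fin d) → ℚ, (∀ g, 0 ≤ ω g) ∧ ∑ g, ω g = 1 ∧
    (∀ g, ω g ≠ 0 → ∀ x y, g x y = g y x) ∧
    ∀ (i : Fin g) (x y : Fin (ar i) → Fin d), ((φ i x : ℚ) + (φ i y : ℚ)) / 2 ≤
      ∑ g, ω g * (φ i (fun j => g (x j) (y j)) : ℚ)

end payoff

open Pool.Agent.Lib.MP_87d05f_lc in
theorem satHard_iff : SatHard ↔ GapETH := by
  unfold SatHard GapETH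
  have h : ∀ ε : ℚ, ∀ b : ℕ, SatSeparator ε b ↔ SepK 3 (fun _ => True) ε b := by
    intro ε b
    constructor
    · rintro ⟨C, e, tm, e₀, acc, rej, hne, h⟩
      exact ⟨C, e, tm, e₀, acc, rej, hne, fun F h1 h2 _ => h F ⟨h1, h2⟩⟩
    · rintro ⟨C, e, tm, e₀, acc, rej, hne, h⟩
      exact ⟨C, e, tm, e₀, acc, rej, hne, fun F h1 => h F h1.1 h1.2 trivial⟩
  simp only [h]

open Pool.Agent.Lib.MP_87d05f_lc in
theorem maxSeparator_iff {d g : ℕ} {ar : Fin g → ℕ} (V : List (Constraint ar) → Prop)
    (μ : List (Constraint ar) → ℕ) (φ : (i : Fin g) → (Fin (ar i) → Fin d) → ℕ)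
    (ε : ℚ) (b : ℕ) : MaxSeparator V μ φ ε b ↔
      GSep (enM (ar := ar)) (fun I => V I.2) (YM φ) (NM φ ε) (fun I => μ I.2) b := Iff.rfl

open Pool.Agent.Lib.MP_87d05f_lc in
theorem findsNearOptimal_iff {d g : ℕ} {ar : Fin g → ℕ} (V : List (Constraint ar) → Prop)
    (μ : List (Constraint ar) → ℕ) (φ : (i : Fin g) → (Fin (ar i) → Fin d) → ℕ)
    (ε : ℚ) (b : ℕ) : FindsNearOptimal V μ φ ε b ↔
      GFind (codeC (ar := ar)) V (goodMax φ ε) μ b := by
  have hc : ∀ F : List (Constraint ar), wordsCode (F.map conWords) = codeC F := fun F =>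
    (codeC_eq F).symm
  constructor
  · rintro ⟨C, e, tm, e₀, e₁, h⟩
    refine ⟨C, e, tm, e₀, e₁, fun F hF => ?_⟩
    obtain ⟨a, ha, hrun⟩ := h F hF
    rw [hc F] at hrun
    exact ⟨_, ⟨a, rfl, ha⟩, hrun⟩
  · rintro ⟨C, e, tm, e₀, e₁, h⟩
    refine ⟨C, e, tm, e₀, e₁, fun F hF => ?_⟩
    obtain ⟨w, ⟨a, rfl, ha⟩, hrun⟩ := h F hF
    refine ⟨a, ha, ?_⟩
    rw [hc F]
    exact hrun

/-! ### Side constraints -/

open Pool.Agent.Lib.MP_87d05f_lc in
theorem cnt_eq {d : ℕ} (a : ℕ → Fin d) (vs : List ℕ) :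
    CC.cnt d (fun v => (a v : ℕ)) vs =
      List.ofFn (fun k : Fin d => vs.countP (fun v => decide (a v = k))) := by
  unfold CC.cnt
  refine List.ext_getElem (by simp) fun i h1 h2 => ?_
  rw [List.length_map, List.length_range] at h1
  rw [List.getElem_map, List.getElem_range, List.getElem_ofFn, List.countP_eq_length_filter]
  refine congrArg List.length (List.filter_congr fun v _ => ?_)
  refine decide_eq_decide.2 ?_
  rw [Fin.ext_iff]

open Pool.Agent.Lib.MP_87d05f_lc in
theorem obeys_iff {d : ℕ} (a : ℕ → Fin d) (P : List SideConstraint) :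
    Obeys a P ↔ CC.MaT a P := by
  unfold Obeys CC.MaT CC.Mat
  refine forall₂_congr fun p _ => ?_
  rw [cnt_eq]

open Pool.Agent.Lib.MP_87d05f_lc in
theorem sideSeparator_iff {d g : ℕ} {ar : Fin g → ℕ}
    (φ : (i : Fin g) → (Fin (ar i) → Fin d) → ℕ) (ε : ℚ) (b : ℕ) : SideSeparator φ ε b ↔
      GSep (CC.enT (ar := ar)) (fun I => CC.PrP d I.2) (CC.YP φ) (CC.NP φ ε)
        (fun I => CC.nvP I.2) b := by
  unfold SideSeparator
  simp only [obeys_iff]
  exact Iff.rfl

open Pool.Agent.Lib.MP_87d05f_lc in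
theorem sideFinds_iff {d g : ℕ} {ar : Fin g → ℕ}
    (φ : (i : Fin g) → (Fin (ar i) → Fin d) → ℕ) (ε : ℚ) (b : ℕ) : SideFinds φ ε b ↔
      GFind (CC.enP (ar := ar)) (CC.PrP d) (CC.goP φ ε) CC.nvP b := by
  unfold SideFinds
  simp only [obeys_iff]
  constructor
  · rintro ⟨C, e, tm, e₀, e₁, h⟩
    refine ⟨C, e, tm, e₀, e₁, fun I hI => ?_⟩
    obtain ⟨a, ha, hopt, hrun⟩ := h I hI
    exact ⟨_, ⟨a, ha, rfl, hopt⟩, hrun⟩
  · rintro ⟨C, e, tm, e₀, e₁, h⟩
    refine ⟨C, e, tm, e₀, e₁, fun I hI => ?_⟩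
    obtain ⟨w, ⟨a, ha, rfl, hopt⟩, hrun⟩ := h I hI
    exact ⟨a, ha, hopt, hrun⟩

theorem rat_pq {ε : ℚ} (h0 : 0 < ε) (h1 : ε < 1) :
    ∃ p q : ℕ, 0 < p ∧ p < q ∧ ε = (p : ℚ) / (q : ℕ) := by
  have hp : 0 < ε.num.toNat := by
    have := Rat.num_pos.2 h0
    omega
  have hpq : ((ε.num.toNat : ℕ) : ℚ) / ((ε.den : ℕ) : ℚ) = ε := by
    have h2 : ((ε.num.toNat : ℕ) : ℤ) = ε.num := Int.toNat_of_nonneg (Rat.num_pos.2 h0).le
    have h3 : ((ε.num.toNat : ℕ) : ℚ) = (ε.num : ℚ) := by exact_mod_cast h2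
    rw [h3, Rat.num_div_den]
  have hlt : ε.num.toNat < ε.den := by
    have hq' : (0 : ℚ) < ((ε.den : ℕ) : ℚ) := by exact_mod_cast ε.den_pos
    rw [← hpq, div_lt_one hq'] at h1
    exact_mod_cast h1
  exact ⟨_, _, hp, hlt, hpq.symm⟩

open Pool.Agent.Lib.MP_87d05f_lc in
/-- If Q1 fails, every language is easy, with all side constraints. -/
theorem easy (hG : ¬ GapETH) {d g : ℕ} {ar : Fin g → ℕ}
    (φ : (i : Fin g) → (Fin (ar i) → Fin d) → ℕ) (hd : 0 < d) :
    ¬ SideHard φ ∧ ¬ SideSearchHard φ := by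
  refine ⟨?_, ?_⟩
  · rintro ⟨ε, h0, h1, b, hb, hn⟩
    obtain ⟨p, q, hp, hpq, rfl⟩ := rat_pq h0 h1
    exact hn ((sideSeparator_iff _ _ _).2 (CC.ccDec d g ar φ p q b hd hp hpq hb
      (CC.ccSearch SP.nfndThm d g ar φ hd (sepK_of_not hG) p q b hp hpq hb)))
  · rintro ⟨ε, h0, h1, b, hb, hn⟩
    obtain ⟨p, q, hp, hpq, rfl⟩ := rat_pq h0 h1
    exact hn ((sideFinds_iff _ _ _).2
      (CC.ccSearch SP.nfndThm d g ar φ hd (sepK_of_not hG) p q b hp hpq hb))

/-- the number of different variables of an instance -/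
def numVars {g : ℕ} {ar : Fin g → ℕ} (F : List (Constraint ar)) : ℕ :=
  (F.flatMap (fun c => List.ofFn c.2)).toFinset.card

/-- hardness with a threshold in time `2 ^ (n / b)` on instances without side constraints -/
def DenseHard {d g : ℕ} {ar : Fin g → ℕ} (φ : (i : Fin g) → (Fin (ar i) → Fin d) → ℕ) : Prop :=
  ∃ ε : ℚ, 0 < ε ∧ ε < 1 ∧ ∃ b : ℕ, 0 < b ∧ ¬ MaxSeparator (fun _ => True) numVars φ ε b

open Pool.Agent.Lib.MP_87d05f_lc in
theorem side_of_dense {d g : ℕ} {ar : Fin g → ℕ}
    (φ : (i : Fin g) → (Fin (ar i) → Fin d) → ℕ) (h : DenseHard φ) : SideHard φ := by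
  obtain ⟨ε, h0, h1, b, hb, hn⟩ := h
  exact ⟨ε, h0, h1, b, hb, fun hs => hn ((maxSeparator_iff _ _ _ _ _).2
    ((CC.ccUn d g ar φ ε b hb).1 ((sideSeparator_iff _ _ _).1 hs)))⟩

open Pool.Agent.Lib.MP_87d05f_lc in
theorem dense_of_length {d g : ℕ} {ar : Fin g → ℕ}
    (φ : (i : Fin g) → (Fin (ar i) → Fin d) → ℕ) {ε : ℚ} {b : ℕ}
    (h : MaxSeparator (fun _ => True) numVars φ ε ((∑ i, ar i + 1) * b)) :
    MaxSeparator (fun _ => True) List.length φ ε b := by
  obtain ⟨C, e, tm, e₀, acc, rej, hne, hS⟩ := h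
  refine ⟨C, e, tm, e₀, acc, rej, hne, fun I hI => ?_⟩
  have h2 : numVars I.2 ≤ (∑ i, ar i) * I.2.length := SP.nvC_le_length I.2
  have h3 : numVars I.2 / ((∑ i, ar i + 1) * b) ≤ I.2.length / b := by
    rw [← Nat.div_div_eq_div_mul]
    refine Nat.div_le_div_right ?_
    refine (Nat.div_le_div_right h2).trans ?_
    refine (Nat.div_le_div_right (Nat.mul_le_mul_right _ (Nat.le_succ _))).trans ?_
    rw [Nat.mul_div_cancel_left _ (Nat.succ_pos _)]
  have h4 : C * ((thrCode I).length + 1) ^ e * 2 ^ (numVars I.2 / ((∑ i, ar i + 1) * b)) ≤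
      C * ((thrCode I).length + 1) ^ e * 2 ^ (I.2.length / b) :=
    Nat.mul_le_mul_left _ (Nat.pow_le_pow_right (by norm_num) h3)
  obtain ⟨hy, hno⟩ := hS I hI
  exact ⟨fun h => outputs_mono h4 (hy h), fun h => outputs_mono h4 (hno h)⟩

open Pool.Agent.Lib.MP_87d05f_lc in
/-- Gap-ETH implies the hardness of every language without symmetric fractional polymorphism. -/
theorem dense_of {d g : ℕ} {ar : Fin g → ℕ}
    (φ : (i : Fin g) → (Fin (ar i) → Fin d) → ℕ) (hd : 0 < d)
    (hφ : ¬ HasSymmetricFractionalPolymorphism φ) (h : SatHard) : DenseHard φ := by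
  have hs : ¬ DI.SymPol (DI.ratP φ) := by
    rintro ⟨ω, ⟨hω, hpol⟩, hsym⟩
    exact hφ ⟨ω, hω.1, hω.2, hsym, hpol⟩
  obtain ⟨X⟩ := DI.gad d g ar φ hd hs
  obtain ⟨ε, h0, h1, b, hb, hn⟩ := cut_main.1 (satHard_iff.1 h)
  obtain ⟨p, q, hp, hpq, rfl⟩ := rat_pq h0 h1
  obtain ⟨p', q', b', hp', hpq', hb', hred⟩ := DI.red d g ar φ X p q b hp hpq hb
  have hp'' : (0 : ℚ) < p' := by exact_mod_cast hp'
  have hq'' : (0 : ℚ) < ((q' : ℕ) : ℚ) := by
    have : 0 < q' := by omega
    exact_mod_cast this
  refine ⟨(p' : ℚ) / (q' : ℕ), div_pos hp'' hq'', ?_, (∑ i, ar i + 1) * b', by positivity,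
    fun hs => hn ?_⟩
  · rw [div_lt_one hq'']
    exact_mod_cast hpq'
  · exact hred ((maxSeparator_iff _ _ _ _ _).1 (dense_of_length φ hs))

open Pool.Agent.Lib.MP_87d05f_lc in
theorem sparse_of_dense {d g : ℕ} {ar : Fin g → ℕ}
    (φ : (i : Fin g) → (Fin (ar i) → Fin d) → ℕ) (hd : 0 < d) (h : DenseHard φ) :
    SparseHard φ := by
  have h' : ∃ ε : ℚ, 0 < ε ∧ ε < 1 ∧ ∃ K : ℕ, ∀ r : ℕ, ∃ b : ℕ, 0 < b ∧
      ¬ MaxSeparator (Sparse K r) List.length φ ε b := DG.dg g d ar φ hd h
  obtain ⟨ε, h0, h1, K, h'⟩ := h'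
  refine ⟨ε, h0, h1, K, fun r => ?_⟩
  obtain ⟨b, hb, hn⟩ := h' r
  refine ⟨b, hb, hn, fun hs => hn ?_⟩
  obtain ⟨p, q, hp, hpq, rfl⟩ := rat_pq h0 h1
  exact (maxSeparator_iff _ _ _ _ _).2 (DG.p_SF g d ar φ (Sparse K r) p q b hp hpq hb
    ((findsNearOptimal_iff _ _ _ _ _).1 hs))

theorem dense_of_sparse {d g : ℕ} {ar : Fin g → ℕ}
    (φ : (i : Fin g) → (Fin (ar i) → Fin d) → ℕ) (h : SparseHard φ) : DenseHard φ := by
  obtain ⟨ε, h0, h1, K, h⟩ := h
  obtain ⟨b, hb, hn⟩ := h 0
  refine ⟨ε, h0, h1, (∑ i, ar i + 1) * b, by positivity, fun hs => ?_⟩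
  obtain ⟨C, e, tm, e₀, acc, rej, hne, hS⟩ := dense_of_length φ hs
  exact hn.1 ⟨C, e, tm, e₀, acc, rej, hne, fun I _ => hS I trivial⟩

/-- the payoff of the maximum cut -/
def cutPayoff : (i : Fin 1) → (Fin 2 → Fin 2) → ℕ := fun _ x => if x 0 ≠ x 1 then 1 else 0

theorem cut_noSym : ¬ HasSymmetricFractionalPolymorphism (ar := fun _ : Fin 1 => 2)
    cutPayoff := by
  rintro ⟨ω, h0, h1, h2, h3⟩
  have h := h3 0 ![0, 1] ![1, 0]
  have hz : ∀ g : Fin 2 → Fin 2 → Fin 2, ω g * ((cutPayoff 0
      (fun j => g ((![0, 1] : Fin 2 → Fin 2) j) ((![1, 0] : Fin 2 → Fin 2) j)) : ℕ) : ℚ) = 0 := by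
    intro g
    by_cases hg : ω g = 0
    · rw [hg, zero_mul]
    · have h4 := h2 g hg 0 1
      have h5 : cutPayoff 0 (fun j => g ((![0, 1] : Fin 2 → Fin 2) j)
          ((![1, 0] : Fin 2 → Fin 2) j)) = 0 := by
        unfold cutPayoff
        simp [h4]
      rw [h5, Nat.cast_zero, mul_zero]
  rw [Finset.sum_eq_zero (fun g _ => hz g)] at h
  have h6 : cutPayoff 0 ![0, 1] = 1 := by unfold cutPayoff; simp
  have h7 : cutPayoff 0 ![1, 0] = 1 := by unfold cutPayoff; simp
  rw [h6, h7] at h
  norm_num at h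

theorem result : List.TFAE
    [SatHard,
     ∀ (d g : ℕ) (ar : Fin g → ℕ) (φ : (i : Fin g) → (Fin (ar i) → Fin d) → ℕ), 0 < d →
      ¬ HasSymmetricFractionalPolymorphism φ → SparseHard φ,
     ∃ (d g : ℕ) (ar : Fin g → ℕ) (φ : (i : Fin g) → (Fin (ar i) → Fin d) → ℕ), 0 < d ∧
      (SideHard φ ∨ SideSearchHard φ)] := by
  tfae_have 1 → 2 := by
    intro h d g ar φ hd hφ
    exact sparse_of_dense φ hd (dense_of φ hd hφ h)
  tfae_have 2 → 3 := fun h => ⟨2, 1, fun _ => 2, cutPayoff, by norm_num,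
    Or.inl (side_of_dense _
      (dense_of_sparse _ (h 2 1 (fun _ => 2) cutPayoff (by norm_num) cut_noSym)))⟩
  tfae_have 3 → 1 := by
    rintro ⟨d, g, ar, φ, hd, h⟩
    rw [satHard_iff]
    by_contra hG
    obtain ⟨h1, h2⟩ := easy hG φ hd
    rcases h with h | h
    · exact h1 h
    · exact h2 h
  tfae_finish

end Pool.Agent.Results.MP_87d05f_lc.Dichotomy
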