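import Mathlib
import Pool.Agent.Lib.MP_87d05f_lc.HG.Main

set_option autoImplicit false

/-!
# Gap-ETH for locally tree-like instances

The statement Q1 (deterministic gap-ETH) is equivalent to its versions for instances of girth more
than `g`, with a gap `ε` (and a bound for the number of occurrences) that does not depend on `g`:
for 3-CNF formulas in which every variable occurs at most three times, for the maximum cut (with a
threshold, or as a search problem) and the independence number of graphs of maximum degree three,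
and for every constraint language whose polymorphisms have a minor-preserving map to the
projections.
-/

namespace Pool.Agent.Results.MP_87d05f_lc.HighGirth

/-- Exponential separators for a promise problem with instances `I`: the instances satisfying
`valid` are given by `code`; those satisfying `yes` must be accepted and those satisfying `no`
rejected within `C (L + 1) ^ e * 2 ^ (μ F / b)` steps, `L` being the length of the code. -/
def Separator {I : Type} (code : I → List Bool) (valid yes no : I → Prop) (μ : I → ℕ)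
    (b : ℕ) : Prop :=
  ∃ C e : ℕ, ∃ tm : Turing.FinTM2, ∃ e₀ : tm.Γ tm.k₀ ≃ Bool,
    ∃ acc rej : List (tm.Γ tm.k₁), acc ≠ rej ∧
    ∀ F : I, valid F →
      (yes F → Nonempty (Turing.TM2OutputsInTime tm ((code F).map e₀.symm) (some acc)
        (C * ((code F).length + 1) ^ e * 2 ^ (μ F / b)))) ∧
      (no F → Nonempty (Turing.TM2OutputsInTime tm ((code F).map e₀.symm) (some rej)
        (C * ((code F).length + 1) ^ e * 2 ^ (μ F / b))))

/-! ### Girth -/

/-- The incidence graph of a list of clauses (or constraints), `vs c` being the list of the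
variables of `c`, one for every place: the position `q` of the list is joined to the variables of
the clause at this position. -/
def incidence {C : Type} (vs : C → List ℕ) (F : List C) : SimpleGraph (ℕ ⊕ ℕ) :=
  SimpleGraph.fromRel (fun x y => ∃ q v c, x = Sum.inl q ∧ y = Sum.inr v ∧ F[q]? = some c ∧
    v ∈ vs c)

/-- no clause contains a variable twice, and the incidence graph has girth more than `g` -/
def LargeGirth {C : Type} (vs : C → List ℕ) (g : ℕ) (F : List C) : Prop :=
  (∀ c ∈ F, (vs c).Nodup) ∧ (g : ℕ∞) < (incidence vs F).egirth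

/-! ### 3-CNF formulas -/

/-- the encoding of formulas fixed in the problem -/
def satCode (F : List (List (Bool × ℕ))) : List Bool :=
  F.flatMap (fun c => c.flatMap (fun l => [true, l.1] ++
    (Nat.bits l.2).flatMap (fun x => [true, x]) ++ [false, false]) ++ [false, true])

/-- the number of variables of a formula -/
def satVars (F : List (List (Bool × ℕ))) : ℕ := (F.flatten.map (fun l => l.2)).toFinset.card

/-- separators for the nonempty 3-CNF formulas of a class, the time being measured by `μ` -/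
def SatSeparator (valid : List (List (Bool × ℕ)) → Prop) (μ : List (List (Bool × ℕ)) → ℕ)
    (ε : ℚ) (b : ℕ) : Prop :=
  Separator satCode (fun F => F ≠ [] ∧ (∀ c ∈ F, c.length ≤ 3) ∧ valid F)
    (fun F => ∃ a : ℕ → Bool, ∀ c ∈ F, ∃ l ∈ c, a l.2 = l.1)
    (fun F => ∀ a : ℕ → Bool, ε * (F.length : ℚ) ≤
      ((F.countP (fun c => !(c.any (fun l => a l.2 == l.1))) : ℕ) : ℚ)) μ b

/-- the statement Q1 of the problem -/
def SatHard : Prop := ∃ ε : ℚ, 0 < ε ∧ ε < 1 ∧ ∃ b : ℕ, 0 < b ∧
  ¬ SatSeparator (fun _ => True) satVars ε b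

/-- no clause is empty, and every variable occurs at most three times (all literals at all clause
positions are counted) -/
def AtMostThrice (F : List (List (Bool × ℕ))) : Prop :=
  [] ∉ F ∧ ∀ v : ℕ, (F.flatten.map (fun l => l.2)).count v ≤ 3

/-- Q1 for formulas of large girth in which every variable occurs at most three times, the time
being measured by the number of clause positions; `ε` does not depend on the girth. -/
def SatHardGirth : Prop := ∃ ε : ℚ, 0 < ε ∧ ε < 1 ∧ ∀ g : ℕ, ∃ b : ℕ, 0 < b ∧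
  ¬ SatSeparator (fun F => AtMostThrice F ∧ LargeGirth (fun c => c.map (fun l => l.2)) g F)
    List.length ε b

/-! ### Graphs of maximum degree three -/

/-- the code of a list of lists of binary words -/
def wordsCode (G : List (List (List Bool))) : List Bool :=
  G.flatMap (fun c => c.flatMap (fun w => w.flatMap (fun x => [true, x]) ++ [false, false]) ++
    [false, true])

/-- a threshold (in unary) and a list of edges (in binary) -/
def graphCode (I : ℕ × List (ℕ × ℕ)) : List Bool :=
  wordsCode ([List.replicate I.1 true] :: I.2.map (fun e => [Nat.bits e.1, Nat.bits e.2]))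

/-- the graph with a given list of edges -/
def graph (E : List (ℕ × ℕ)) : SimpleGraph ℕ := SimpleGraph.fromRel (fun u v => (u, v) ∈ E)

/-- the list of the edges of a simple graph of maximum degree at most three and of girth more than
`g` -/
def Subcubic (g : ℕ) (E : List (ℕ × ℕ)) : Prop :=
  ((∀ e ∈ E, e.1 ≠ e.2) ∧ E.Pairwise (fun e f => e ≠ f ∧ e ≠ (f.2, f.1)) ∧
    ∀ v, (E.flatMap (fun e => [e.1, e.2])).count v ≤ 3) ∧ (g : ℕ∞) < (graph E).egirth

/-- the number of vertices that are not isolated -/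
def vertices (E : List (ℕ × ℕ)) : ℕ := (E.flatMap (fun e => [e.1, e.2])).toFinset.card

/-- the number of edges between the two sides of a bipartition -/
def cutSize (a : ℕ → Bool) (E : List (ℕ × ℕ)) : ℕ := E.countP (fun e => xor (a e.1) (a e.2))

/-- Q1 for the maximum cut of graphs of large girth and maximum degree three: for every `g` there is
`b` such that no machine accepts the pairs of a threshold `t` and a graph with a cut of at least `t`
edges and rejects those where all cuts have less than `(1 - ε) t` edges, in time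
`C (L + 1) ^ e * 2 ^ (n / b)` for `n` vertices; `ε` does not depend on `g`. -/
def CutHardGirth : Prop := ∃ ε : ℚ, 0 < ε ∧ ε < 1 ∧ ∀ g : ℕ, ∃ b : ℕ, 0 < b ∧
  ¬ Separator graphCode (fun I => Subcubic g I.2) (fun I => ∃ a : ℕ → Bool, I.1 ≤ cutSize a I.2)
    (fun I => ∀ a : ℕ → Bool, (cutSize a I.2 : ℚ) < (1 - ε) * (I.1 : ℚ))
    (fun I => vertices I.2) b

/-- A deterministic machine computes, for every graph of maximum degree three and girth more than
`g`, a bipartition `a` (the sides of the two ends of every edge) whose cut has at least `(1 - ε)`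
times the maximum number of edges, in time `C (L + 1) ^ e * 2 ^ (n / b)` for `n` vertices. -/
def FindsLargeCut (g : ℕ) (ε : ℚ) (b : ℕ) : Prop :=
  ∃ C e : ℕ, ∃ tm : Turing.FinTM2, ∃ e₀ : tm.Γ tm.k₀ ≃ Bool, ∃ e₁ : tm.Γ tm.k₁ ≃ Bool,
    ∀ E : List (ℕ × ℕ), Subcubic g E → ∃ a : ℕ → Bool,
      (∀ a' : ℕ → Bool, (1 - ε) * (cutSize a' E : ℚ) ≤ (cutSize a E : ℚ)) ∧
      Nonempty (Turing.TM2OutputsInTime tm
        ((wordsCode (E.map (fun e => [Nat.bits e.1, Nat.bits e.2]))).map e₀.symm)
        (some ((E.flatMap (fun e => [a e.1, a e.2])).map e₁.symm))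
        (C * ((wordsCode (E.map (fun e => [Nat.bits e.1, Nat.bits e.2]))).length + 1) ^ e *
          2 ^ (vertices E / b)))

/-- the search version for the maximum cut -/
def CutSearchHardGirth : Prop := ∃ ε : ℚ, 0 < ε ∧ ε < 1 ∧ ∀ g : ℕ, ∃ b : ℕ, 0 < b ∧
  ¬ FindsLargeCut g ε b

/-- the set of the vertices `v` with `a v = true` is independent -/
def Independent (a : ℕ → Bool) (E : List (ℕ × ℕ)) : Prop :=
  ∀ e ∈ E, ¬ (a e.1 = true ∧ a e.2 = true)

/-- the number of vertices of the set, isolated vertices not being counted -/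
def size (a : ℕ → Bool) (E : List (ℕ × ℕ)) : ℕ :=
  ((E.flatMap (fun e => [e.1, e.2])).toFinset.filter (fun v => a v = true)).card

/-- Q1 for the independence number of graphs of large girth and maximum degree three: accept if
some independent set has at least `t` elements, reject if all independent sets have less than
`(1 - ε) t` elements. -/
def IndepHardGirth : Prop := ∃ ε : ℚ, 0 < ε ∧ ε < 1 ∧ ∀ g : ℕ, ∃ b : ℕ, 0 < b ∧
  ¬ Separator graphCode (fun I => Subcubic g I.2)
    (fun I => ∃ a : ℕ → Bool, Independent a I.2 ∧ I.1 ≤ size a I.2)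
    (fun I => ∀ a : ℕ → Bool, Independent a I.2 → (size a I.2 : ℚ) < (1 - ε) * (I.1 : ℚ))
    (fun I => vertices I.2) b

/-! ### Constraint satisfaction problems -/

section csp

variable {d s : ℕ} {ar : Fin s → ℕ}

/-- a constraint: a relation symbol `i` with a list of `ar i` variables -/
abbrev Constraint (ar : Fin s → ℕ) : Type := (i : Fin s) × (Fin (ar i) → ℕ)

/-- the encoding of instances, the symbol and the variables of every constraint in binary -/
def cspCode (F : List (Constraint ar)) : List Bool :=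
  F.flatMap (fun c => ((c.1 : ℕ) :: List.ofFn c.2).flatMap (fun v =>
    (Nat.bits v).flatMap (fun x => [true, x]) ++ [false, false]) ++ [false, true])

/-- no variable occurs more than `K` times, over all constraints and all their places -/
def AtMost (K : ℕ) (F : List (Constraint ar)) : Prop :=
  ∀ v : ℕ, (F.flatMap (fun c => List.ofFn c.2)).count v ≤ K

/-- Q1 for a constraint language `R` (`R i x = true` means that the tuple `x` is in the `i`-th
relation) and nonempty instances of large girth and bounded occurrence: accept the satisfiable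
instances, reject the instances in which every assignment violates an `ε` fraction of the
constraints, in time `C (L + 1) ^ e * 2 ^ (m / b)` for `m` constraints; `K` and `ε` do not depend
on the girth. -/
def CspHardGirth (R : (i : Fin s) → (Fin (ar i) → Fin d) → Bool) : Prop :=
  ∃ K : ℕ, ∃ ε : ℚ, 0 < ε ∧ ε < 1 ∧ ∀ g : ℕ, ∃ b : ℕ, 0 < b ∧
    ¬ Separator (cspCode (ar := ar))
      (fun F => F ≠ [] ∧ AtMost K F ∧ LargeGirth (fun c => List.ofFn c.2) g F)
      (fun F => ∃ a : ℕ → Fin d, ∀ c ∈ F, R c.1 (fun j => a (c.2 j)) = true)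
      (fun F => ∀ a : ℕ → Fin d, ε * (F.length : ℚ) ≤
        ((F.countP (fun c => !(R c.1 (fun j => a (c.2 j)))) : ℕ) : ℚ)) List.length b

/-- `f` is a polymorphism: it preserves all relations -/
def Poly (R : (i : Fin s) → (Fin (ar i) → Fin d) → Bool) {n : ℕ}
    (f : (Fin n → Fin d) → Fin d) : Prop :=
  ∀ (i : Fin s) (t : Fin n → Fin (ar i) → Fin d), (∀ k, R i (t k) = true) →
    R i (fun j => f (fun k => t k j)) = true

/-- There is a minor-preserving map from the polymorphisms to the projections: `ξ` chooses a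
coordinate of every operation, and the coordinate chosen for the minor of a polymorphism `f`
given by `π` is `π` of the coordinate chosen for `f`. -/
def ToProjections (R : (i : Fin s) → (Fin (ar i) → Fin d) → Bool) : Prop :=
  ∃ ξ : (n : ℕ) → ((Fin (n + 1) → Fin d) → Fin d) → Fin (n + 1),
    ∀ (n m : ℕ) (π : Fin (n + 1) → Fin (m + 1)) (f : (Fin (n + 1) → Fin d) → Fin d),
      Poly R f → ξ m (fun x => f (fun k => x (π k))) = π (ξ n f)

end csp

open Pool.Agent.Lib.MP_87d05f_lc Pool.Agent.Lib.MP_87d05f_lc.HG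

theorem satHard_iff : SatHard ↔ GapETH := by
  unfold SatHard GapETH
  have h : ∀ ε : ℚ, ∀ b : ℕ, SatSeparator (fun _ => True) satVars ε b ↔
      SepK 3 (fun _ => True) ε b := by
    intro ε b
    constructor
    · rintro ⟨C, e, tm, e₀, acc, rej, hne, h⟩
      exact ⟨C, e, tm, e₀, acc, rej, hne, fun F h1 h2 _ => h F ⟨h1, h2, trivial⟩⟩
    · rintro ⟨C, e, tm, e₀, acc, rej, hne, h⟩
      exact ⟨C, e, tm, e₀, acc, rej, hne, fun F h1 => h F h1.1 h1.2.1 trivial⟩
  simp only [h]

theorem rat_pq {ε : ℚ} (h0 : 0 < ε) (h1 : ε < 1) :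
    ∃ p q : ℕ, 0 < p ∧ p < q ∧ ε = (p : ℚ) / (q : ℕ) := by
  have hp : 0 < ε.num.toNat := by
    have := Rat.num_pos.2 h0
    omega
  have hpq : ((ε.num.toNat : ℕ) : ℚ) / ((ε.den : ℕ) : ℚ) = ε := by
    have h2 : ((ε.num.toNat : ℕ) : ℤ) = ε.num := Int.toNat_of_nonneg (Rat.num_pos.2 h0).le
    have h3 : ((ε.num.toNat : ℕ) : ℚ) = (ε.num : ℚ) := by exact_mod_cast h2
    rw [h3, Rat.num_div_den]
  have hlt : ε.num.toNat < ε.den := by
    have hq' : (0 : ℚ) < ((ε.den : ℕ) : ℚ) := by exact_mod_cast ε.den_pos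
    rw [← hpq, div_lt_one hq'] at h1
    exact_mod_cast h1
  exact ⟨_, _, hp, hlt, hpq.symm⟩

theorem nvars_le {F : List (List (Bool × ℕ))} (h : ∀ c ∈ F, c.length ≤ 3) :
    nvars F ≤ 3 * F.length := by
  rw [nvars_eq]
  refine (List.toFinset_card_le _).trans ?_
  exact vlist_length_le h

theorem sat_of_girth (h : SatHardGirth) : SatHard := by
  rw [satHard_iff]
  by_contra hG
  obtain ⟨ε, h0, h1, h⟩ := h
  obtain ⟨b, hb, h⟩ := h 0
  obtain ⟨p, q, hp, hpq, rfl⟩ := rat_pq h0 h1
  obtain ⟨C, e, tm, e₀, acc, rej, hne, hS⟩ := sepK_of_not hG 3 p q (3 * b) le_rfl hp hpq (by omega)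
  refine h ⟨C, e, tm, e₀, acc, rej, hne, fun F hF => ?_⟩
  have ht : C * ((encF F).length + 1) ^ e * 2 ^ (nvars F / (3 * b)) ≤
      C * ((encF F).length + 1) ^ e * 2 ^ (F.length / b) := by
    refine Nat.mul_le_mul_left _ (Nat.pow_le_pow_right (by norm_num) ?_)
    have := Nat.div_le_div_right (c := 3 * b) (nvars_le hF.2.1)
    rwa [Nat.mul_div_mul_left _ _ (by norm_num)] at this
  exact ⟨fun g => outputs_mono ht ((hS F hF.1 hF.2.1 trivial).1 g),
    fun g => outputs_mono ht ((hS F hF.1 hF.2.1 trivial).2 g)⟩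

theorem cut_search_of (hCF : S_CF) (h : CutHardGirth) : CutSearchHardGirth := by
  obtain ⟨ε, h0, h1, h⟩ := h
  refine ⟨ε, h0, h1, fun g => ?_⟩
  obtain ⟨b, hb, hn⟩ := h g
  refine ⟨b, hb, fun hs => hn ?_⟩
  obtain ⟨p, q, hp, hpq, rfl⟩ := rat_pq h0 h1
  refine hCF (fun E => (g : ℕ∞) < (gE E).egirth) p q b (by omega) hpq.le hb ?_
  obtain ⟨C, e, tm, e₀, e₁, h⟩ := hs
  refine ⟨C, e, tm, e₀, e₁, fun E hE => ?_⟩
  obtain ⟨a, ha, hrun⟩ := h E hE
  exact ⟨_, ⟨a, rfl, ha⟩, hrun⟩

theorem sat_of_cut_search (h : CutSearchHardGirth) : SatHard := by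
  rw [satHard_iff]
  by_contra hG
  obtain ⟨ε, h0, h1, h⟩ := h
  obtain ⟨b, hb, h⟩ := h 0
  obtain ⟨p, q, hp, hpq, rfl⟩ := rat_pq h0 h1
  obtain ⟨C, e, tm, e₀, e₁, hf⟩ := find_cut_of_max (ε := (p : ℚ) / (q : ℕ)) hb (by
    obtain ⟨C, e, tm, e₀, e₁, h⟩ := search_main (ar := fun _ : Fin 1 => 2) phiX (by norm_num)
      (sepK_of_not hG) hp hpq (b := 2 * b) (by omega)
    refine ⟨C, e, tm, e₀, e₁, fun F _ => ?_⟩
    obtain ⟨a, ha, hrun⟩ := h F
    refine ⟨_, ⟨a, rfl, fun a' => ?_⟩, hrun⟩
    have h2 := ha a'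
    have hq' : (0 : ℚ) < ((q : ℕ) : ℚ) := by
      have : 0 < q := by omega
      exact_mod_cast this
    have h3 : ((q : ℕ) : ℚ) * (valC phiX a' F : ℚ) ≤
        ((q : ℕ) : ℚ) * (valC phiX a F : ℚ) + (p : ℚ) * (valC phiX a' F : ℚ) := by
      exact_mod_cast h2
    have h4 : ((q : ℕ) : ℚ) * ((1 - (p : ℚ) / ((q : ℕ) : ℚ)) * (valC phiX a' F : ℚ)) =
        ((q : ℕ) : ℚ) * (valC phiX a' F : ℚ) - (p : ℚ) * (valC phiX a' F : ℚ) := by
      field_simp
    have h5 : ((q : ℕ) : ℚ) * ((1 - (p : ℚ) / ((q : ℕ) : ℚ)) * (valC phiX a' F : ℚ)) ≤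
        ((q : ℕ) : ℚ) * (valC phiX a F : ℚ) := by
      rw [h4]
      linarith
    exact le_of_mul_le_mul_left h5 hq')
  refine h ⟨C, e, tm, e₀, e₁, fun E hE => ?_⟩
  obtain ⟨w, ⟨a, rfl, ha⟩, hrun⟩ := hf E hE.1
  exact ⟨a, ha, hrun⟩

theorem sat_of_indep (hIR : S_IR) (h : IndepHardGirth) : SatHard := by
  rw [satHard_iff]
  by_contra hG
  obtain ⟨ε, h0, h1, h⟩ := h
  obtain ⟨b, hb, h⟩ := h 0
  obtain ⟨p, q, hp, hpq, rfl⟩ := rat_pq h0 h1
  exact h ((hIR hG p q b hp hpq hb).mono (fun F hF => hF.1) (fun _ _ h => h) (fun _ _ h => h)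
    (fun _ _ => le_rfl))

theorem sat_of_csp {d s : ℕ} {ar : Fin s → ℕ} {R : (i : Fin s) → (Fin (ar i) → Fin d) → Bool}
    (hR : ToProjections R) (h : CspHardGirth R) : SatHard := by
  rw [satHard_iff]
  obtain ⟨_, h2, h3⟩ := csp_main (R := R) hR sepK_of_not sparse_of
  refine h2 (h3 ?_)
  obtain ⟨K, ε, h0, h1, h⟩ := h
  obtain ⟨b, hb, h⟩ := h 0
  refine ⟨K, ε, h0, h1, b, hb, fun hs => h ?_⟩
  exact hs.mono (fun F hF => ⟨hF.1, hF.2.1⟩) (fun _ _ h => h) (fun _ _ h => h) (fun _ _ => le_rfl)

theorem cnf_iff (ε : ℚ) (b g : ℕ) :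
    SatSeparator (fun F => AtMostThrice F ∧ LargeGirth (fun c => c.map (fun l => l.2)) g F)
      List.length ε b ↔
    GSep encF (fun F => V3 F ∧ HGI (vsL (V := ℕ)) g F) Y3 (N3 ε) List.length b := by
  constructor
  · intro hs
    exact GSep.mono (fun F hF => ⟨hF.1.1, hF.1.2.1, hF.1.2.2, hF.2⟩) (fun _ _ h => h)
      (fun _ _ h => h) (fun _ _ => le_rfl) hs
  · intro hs
    exact GSep.mono (fun F hF => ⟨⟨hF.1, hF.2.1, hF.2.2.1⟩, hF.2.2.2⟩) (fun _ _ h => h)
      (fun _ _ h => h) (fun _ _ => le_rfl) hs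

theorem csp_iff {d s : ℕ} {ar : Fin s → ℕ} (R : (i : Fin s) → (Fin (ar i) → Fin d) → Bool)
    (K : ℕ) (ε : ℚ) (b g : ℕ) :
    Separator (cspCode (ar := ar))
      (fun F => F ≠ [] ∧ AtMost K F ∧ LargeGirth (fun c => List.ofFn c.2) g F)
      (fun F => ∃ a : ℕ → Fin d, ∀ c ∈ F, R c.1 (fun j => a (c.2 j)) = true)
      (fun F => ∀ a : ℕ → Fin d, ε * (F.length : ℚ) ≤
        ((F.countP (fun c => !(R c.1 (fun j => a (c.2 j)))) : ℕ) : ℚ)) List.length b ↔
    GSep (codeC (ar := ar)) (fun F => VK K F ∧ HGI (vsC (ar := ar) (V := ℕ)) g F) (YC R)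
      (NC R ε) List.length b := by
  constructor
  · intro hs
    exact GSep.mono (fun F hF => ⟨hF.1.1, hF.1.2, hF.2⟩) (fun _ _ h => h)
      (fun _ _ h => h) (fun _ _ => le_rfl) hs
  · intro hs
    exact GSep.mono (fun F hF => ⟨⟨hF.1, hF.2.1⟩, hF.2.2⟩) (fun _ _ h => h)
      (fun _ _ h => h) (fun _ _ => le_rfl) hs

theorem result :
    List.TFAE [SatHard, SatHardGirth, CutHardGirth, CutSearchHardGirth, IndepHardGirth] ∧
    ∀ (d s : ℕ) (ar : Fin s → ℕ) (R : (i : Fin s) → (Fin (ar i) → Fin d) → Bool),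
      ToProjections R → (SatHard ↔ CspHardGirth R) := by
  constructor
  · tfae_have 1 → 2 := by
      intro h
      obtain ⟨ε, h0, h1, h⟩ := m_CNF (satHard_iff.1 h)
      refine ⟨ε, h0, h1, fun g => ?_⟩
      obtain ⟨b, hb, h⟩ := h g
      exact ⟨b, hb, fun hs => h ((cnf_iff ε b g).1 hs)⟩
    tfae_have 2 → 1 := sat_of_girth
    tfae_have 1 → 3 := fun h => m_CUT (satHard_iff.1 h)
    tfae_have 3 → 4 := cut_search_of p_CF
    tfae_have 4 → 1 := sat_of_cut_search
    tfae_have 1 → 5 := fun h => m_IND (satHard_iff.1 h)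
    tfae_have 5 → 1 := sat_of_indep p_IR
    tfae_finish
  · intro d s ar R hR
    refine ⟨fun h => ?_, sat_of_csp hR⟩
    obtain ⟨K, ε, h0, h1, h⟩ := m_CSP s d ar R hR (satHard_iff.1 h)
    refine ⟨K, ε, h0, h1, fun g => ?_⟩
    obtain ⟨b, hb, h⟩ := h g
    exact ⟨b, hb, fun hs => h ((csp_iff R K ε b g).1 hs)⟩

end Pool.Agent.Results.MP_87d05f_lc.HighGirth
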