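import Mathlib
import Pool.Agent.Lib.MP_87d05f_lc.TH.Main

set_option autoImplicit false

/-!
# The thresholds of subexponential time approximation are attained on locally tree-like instances

For every finite domain, every finite list of payoffs (and of relations) and all `c`, `s`: if no
machine of running time `C (L + 1) ^ e * 2 ^ (n / b)` (for some `b`) separates, among all instances
with `n` variables, those having an assignment that satisfies the relations and has average payoff at
least `c` from those with all average payoffs less than `s`, then for every `η > 0` there is `K` such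
that for every `g`, for some `b`, no machine of running time `C (L + 1) ^ e * 2 ^ (m / b)` separates
`c - η` from `s + η` on the instances with `m` constraints in which every variable occurs at most `K`
times and whose incidence graph has girth more than `g`; and conversely hardness on such instances
implies hardness in general. The same for the statement Q1 with a given `ε`.
-/

namespace Pool.Agent.Results.MP_87d05f_lc.Thresholds

/-- Exponential separators for a promise problem with instances `I`: the instances satisfying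
`valid` are given by `code`; those satisfying `yes` must be accepted and those satisfying `no`
rejected within `C (L + 1) ^ e * 2 ^ (μ F / b)` steps, `L` being the length of the code. -/
def Separator {I : Type} (code : I → List Bool) (valid yes no : I → Prop) (μ : I → ℕ)
    (b : ℕ) : Prop :=
  ∃ C e : ℕ, ∃ tm : Turing.FinTM2, ∃ e₀ : tm.Γ tm.k₀ ≃ Bool,
    ∃ acc rej : List (tm.Γ tm.k₁), acc ≠ rej ∧
    ∀ F : I, valid F →
      (yes F → Nonempty (Turing.TM2OutputsInTime tm ((code F).map e₀.symm) (some acc)
        (C * ((code F).length + 1) ^ e * 2 ^ (μ F / b)))) ∧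
      (no F → Nonempty (Turing.TM2OutputsInTime tm ((code F).map e₀.symm) (some rej)
        (C * ((code F).length + 1) ^ e * 2 ^ (μ F / b))))

/-- The incidence graph of a list of constraints, `vs c` being the list of the variables of `c`:
the position `q` of the list is joined to the variables of the constraint at this position. -/
def incidence {C : Type} (vs : C → List ℕ) (F : List C) : SimpleGraph (ℕ ⊕ ℕ) :=
  SimpleGraph.fromRel (fun x y => ∃ q v c, x = Sum.inl q ∧ y = Sum.inr v ∧ F[q]? = some c ∧
    v ∈ vs c)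

/-- Every variable occurs at most `K` times (over all constraints and all their places), no
constraint contains a variable twice, and the incidence graph has girth more than `g`. -/
def TreeLike {C : Type} (vs : C → List ℕ) (K g : ℕ) (F : List C) : Prop :=
  (∀ v : ℕ, (F.flatMap vs).count v ≤ K) ∧ (∀ c ∈ F, (vs c).Nodup) ∧
    (g : ℕ∞) < (incidence vs F).egirth

/-! ### The statement Q1 with a given gap -/

/-- the encoding of formulas fixed in the problem -/
def satCode (F : List (List (Bool × ℕ))) : List Bool :=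
  F.flatMap (fun c => c.flatMap (fun l => [true, l.1] ++
    (Nat.bits l.2).flatMap (fun x => [true, x]) ++ [false, false]) ++ [false, true])

/-- separators for the nonempty 3-CNF formulas of a class, the time being measured by `μ` -/
def SatSeparator (valid : List (List (Bool × ℕ)) → Prop) (μ : List (List (Bool × ℕ)) → ℕ)
    (ε : ℚ) (b : ℕ) : Prop :=
  Separator satCode (fun F => F ≠ [] ∧ (∀ c ∈ F, c.length ≤ 3) ∧ valid F)
    (fun F => ∃ a : ℕ → Bool, ∀ c ∈ F, ∃ l ∈ c, a l.2 = l.1)
    (fun F => ∀ a : ℕ → Bool, ε * (F.length : ℚ) ≤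
      ((F.countP (fun c => !(c.any (fun l => a l.2 == l.1))) : ℕ) : ℚ)) μ b

/-- Q1 with the gap `ε`: `(ε, b)` admits no exponential separator, for some `b` -/
def SatHard (ε : ℚ) : Prop := ∃ b : ℕ, 0 < b ∧
  ¬ SatSeparator (fun _ => True) (fun F => (F.flatten.map (fun l => l.2)).toFinset.card) ε b

/-- Q1 with the gap `ε` for locally tree-like formulas, the time being measured by the number of
clause positions -/
def SatHardTree (ε : ℚ) : Prop := ∃ K : ℕ, ∀ g : ℕ, ∃ b : ℕ, 0 < b ∧
  ¬ SatSeparator (TreeLike (fun c => c.map (fun l => l.2)) K g) List.length ε b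

/-! ### Constraint satisfaction problems -/

variable {l d : ℕ} {ar : Fin l → ℕ}

/-- a constraint: a symbol `i` with a list of `ar i` variables -/
abbrev Constraint (ar : Fin l → ℕ) : Type := (i : Fin l) × (Fin (ar i) → ℕ)

/-- the encoding of instances, the symbol and the variables of every constraint in binary -/
def code (F : List (Constraint ar)) : List Bool :=
  F.flatMap (fun c => ((c.1 : ℕ) :: List.ofFn c.2).flatMap (fun v =>
    (Nat.bits v).flatMap (fun x => [true, x]) ++ [false, false]) ++ [false, true])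

/-- the sum of the payoffs of all constraints -/
def value (φ : (i : Fin l) → (Fin (ar i) → Fin d) → ℕ) (a : ℕ → Fin d)
    (F : List (Constraint ar)) : ℕ := (F.map (fun q => φ q.1 (fun j => a (q.2 j)))).sum

/-- Separators for the gap `c`, `s` on the nonempty instances of a class in which no constraint
contains a variable twice: accept if some assignment satisfies the relations `R` in all constraints
and has average payoff at least `c`, reject if all assignments have average payoff less than `s`. -/
def GapSeparator (φ : (i : Fin l) → (Fin (ar i) → Fin d) → ℕ)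
    (R : (i : Fin l) → (Fin (ar i) → Fin d) → Bool) (c s : ℚ)
    (valid : List (Constraint ar) → Prop) (μ : List (Constraint ar) → ℕ) (b : ℕ) : Prop :=
  Separator code (fun F => F ≠ [] ∧ (∀ q ∈ F, (List.ofFn q.2).Nodup) ∧ valid F)
    (fun F => ∃ a : ℕ → Fin d, (∀ q ∈ F, R q.1 (fun j => a (q.2 j)) = true) ∧
      c * (F.length : ℚ) ≤ ((value φ a F : ℕ) : ℚ))
    (fun F => ∀ a : ℕ → Fin d, ((value φ a F : ℕ) : ℚ) < s * (F.length : ℚ)) μ b

/-- for some `b` there is no separator in time `2 ^ (n / b)`, `n` the number of variables -/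
def Hard (φ : (i : Fin l) → (Fin (ar i) → Fin d) → ℕ)
    (R : (i : Fin l) → (Fin (ar i) → Fin d) → Bool) (c s : ℚ) : Prop := ∃ b : ℕ, 0 < b ∧
  ¬ GapSeparator φ R c s (fun _ => True)
    (fun F => (F.flatMap (fun q => List.ofFn q.2)).toFinset.card) b

/-- there is `K` such that for every `g`, for some `b`, there is no separator in time `2 ^ (m / b)`,
`m` the number of constraints, on the instances in which every variable occurs at most `K` times and
whose incidence graph has girth more than `g` -/
def HardTree (φ : (i : Fin l) → (Fin (ar i) → Fin d) → ℕ)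
    (R : (i : Fin l) → (Fin (ar i) → Fin d) → Bool) (c s : ℚ) : Prop :=
  ∃ K : ℕ, ∀ g : ℕ, ∃ b : ℕ, 0 < b ∧
    ¬ GapSeparator φ R c s (TreeLike (fun q => List.ofFn q.2) K g) List.length b

open Pool.Agent.Lib.MP_87d05f_lc Pool.Agent.Lib.MP_87d05f_lc.HG Pool.Agent.Lib.MP_87d05f_lc.TH

theorem satHard_iff (ε : ℚ) :
    SatHard ε ↔ ∃ b : ℕ, 0 < b ∧ ¬ SepK 3 (fun _ => True) ε b := by
  unfold SatHard
  refine exists_congr fun b => and_congr_right fun _ => not_congr ?_
  constructor
  · rintro ⟨C, e, tm, e₀, acc, rej, hne, h⟩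
    exact ⟨C, e, tm, e₀, acc, rej, hne, fun F h1 h2 _ => h F ⟨h1, h2, trivial⟩⟩
  · rintro ⟨C, e, tm, e₀, acc, rej, hne, h⟩
    exact ⟨C, e, tm, e₀, acc, rej, hne, fun F h1 => h F h1.1 h1.2.1 trivial⟩

theorem count_flat (F : List (List (Bool × ℕ))) (v : ℕ) :
    (F.flatMap (fun c => c.map (fun l => l.2))).count v =
      (F.flatten.map (fun l => l.2)).count v := by
  rw [List.map_flatten, ← List.flatMap_def]

theorem cnf_iff (ε : ℚ) (K b g : ℕ) :
    SatSeparator (TreeLike (fun c => c.map (fun l => l.2)) K g) List.length ε b ↔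
    GSep encF (fun F => V3K K F ∧ HGI (vsL (V := ℕ)) g F) Y3 (N3 ε) List.length b := by
  constructor
  · intro hs
    refine GSep.mono (fun F hF => ⟨hF.1.1, hF.1.2.1, fun v => ?_, hF.2.1, hF.2.2⟩) (fun _ _ h => h)
      (fun _ _ h => h) (fun _ _ => le_rfl) hs
    rw [count_flat]
    exact hF.1.2.2 v
  · intro hs
    refine GSep.mono (fun F hF => ⟨⟨hF.1, hF.2.1, fun v => ?_⟩, hF.2.2.2.1, hF.2.2.2.2⟩)
      (fun _ _ h => h) (fun _ _ h => h) (fun _ _ => le_rfl) hs
    rw [← count_flat]
    exact hF.2.2.1 v

theorem hard_iff (φ : (i : Fin l) → (Fin (ar i) → Fin d) → ℕ)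
    (R : (i : Fin l) → (Fin (ar i) → Fin d) → Bool) (c s : ℚ) :
    Hard φ R c s ↔ ∃ b : ℕ, 0 < b ∧ ¬ GSep (codeC (ar := ar)) (fun F => F ≠ [] ∧ Prp F)
      (YT φ R c) (NT φ s) nvC b := by
  unfold Hard
  refine exists_congr fun b => and_congr_right fun _ => not_congr ?_
  constructor
  · intro hs
    exact GSep.mono (fun F hF => ⟨hF.1, hF.2, trivial⟩) (fun _ _ h => h)
      (fun _ _ h => h) (fun _ _ => le_rfl) hs
  · intro hs
    exact GSep.mono (fun F hF => ⟨hF.1, hF.2.1⟩) (fun _ _ h => h)
      (fun _ _ h => h) (fun _ _ => le_rfl) hs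

theorem hardTree_iff (φ : (i : Fin l) → (Fin (ar i) → Fin d) → ℕ)
    (R : (i : Fin l) → (Fin (ar i) → Fin d) → Bool) (c s : ℚ) (K g b : ℕ) :
    GapSeparator φ R c s (TreeLike (fun q => List.ofFn q.2) K g) List.length b ↔
      GSep (codeC (ar := ar)) (fun F => VK K F ∧ HGI (vsC (ar := ar) (V := ℕ)) g F)
        (YT φ R c) (NT φ s) List.length b := by
  constructor
  · intro hs
    exact GSep.mono (fun F hF => ⟨hF.1.1, hF.2.1, hF.1.2, hF.2.1, hF.2.2⟩) (fun _ _ h => h)
      (fun _ _ h => h) (fun _ _ => le_rfl) hs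
  · intro hs
    exact GSep.mono (fun F hF => ⟨⟨hF.1, hF.2.2.1⟩, hF.2.1, hF.2.2.2.2⟩) (fun _ _ h => h)
      (fun _ _ h => h) (fun _ _ => le_rfl) hs

theorem result :
    (∀ ε ε' : ℚ, ε' < ε → (SatHard ε → SatHardTree ε') ∧ (SatHardTree ε → SatHard ε)) ∧
    ∀ (l d : ℕ) (ar : Fin l → ℕ) (φ : (i : Fin l) → (Fin (ar i) → Fin d) → ℕ)
      (R : (i : Fin l) → (Fin (ar i) → Fin d) → Bool) (c s η : ℚ), 0 < d → 0 < η →
      (Hard φ R c s → HardTree φ R (c - η) (s + η)) ∧ (HardTree φ R c s → Hard φ R c s) := by
  refine ⟨fun ε ε' hε => ⟨fun h => ?_, fun h => ?_⟩, fun l d ar φ R c s η hd hη =>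
    ⟨fun h => ?_, fun h => ?_⟩⟩
  · obtain ⟨K, h⟩ := m_Q.1 ε ε' hε ((satHard_iff ε).1 h)
    refine ⟨K, fun g => ?_⟩
    obtain ⟨b, hb, h⟩ := h g
    exact ⟨b, hb, fun hs => h ((cnf_iff ε' K b g).1 hs)⟩
  · obtain ⟨K, h⟩ := h
    obtain ⟨b, hb, h⟩ := h 0
    exact (satHard_iff ε).2 (m_Q.2 ε ⟨K, 0, b, hb, fun hs => h ((cnf_iff ε K b 0).2 hs)⟩)
  · obtain ⟨K, h⟩ := (m_TH l d ar φ R c s hd).1 η hη ((hard_iff φ R c s).1 h)
    refine ⟨K, fun g => ?_⟩
    obtain ⟨b, hb, h⟩ := h g
    exact ⟨b, hb, fun hs => h ((hardTree_iff φ R _ _ K g b).1 hs)⟩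
  · obtain ⟨K, h⟩ := h
    obtain ⟨b, hb, h⟩ := h 0
    exact (hard_iff φ R c s).2 ((m_TH l d ar φ R c s hd).2
      ⟨K, 0, b, hb, fun hs => h ((hardTree_iff φ R c s K 0 b).2 hs)⟩)

end Pool.Agent.Results.MP_87d05f_lc.Thresholds
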