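import Mathlib
import Pool.Agent.Lib.MP_87d05f_lc.ND.Main3

set_option autoImplicit false

/-!
# Gap-ETH and vertex deletion problems

Let `FF` be a nonempty set of finite graphs such that there are graphs with arbitrarily many
vertices without induced subgraph isomorphic to a member of `FF` (`FF`-free graphs), and let
`τ(G)` be the least number of vertices of the graph `G` whose deletion leaves an `FF`-free graph.
The deterministic gap-ETH implies that for some `ε`, `b` the number `τ(G)` cannot be approximated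
up to the factor `1 + ε` in time `2 ^ ⌊n / b⌋` (version with a threshold; if every member of `FF`
has an edge, even for graphs of bounded degree), and this implies that for some `ε`, `b` no machine
finds in such time a set of at most `(1 + ε) τ(G)` vertices for every graph `G`. If `FF` is finite,
the latter implies the gap-ETH, so that the three statements are equivalent.
-/

namespace Pool.Agent.Results.MP_87d05f_lc.VertexDeletion

/-- Exponential separators for a promise problem with instances `I`: the instances satisfying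
`valid` are given by `code`; those satisfying `yes` must be accepted and those satisfying `no`
rejected within `C (L + 1) ^ e * 2 ^ (μ F / b)` steps, `L` being the length of the code. -/
def Separator {I : Type} (code : I → List Bool) (valid yes no : I → Prop) (μ : I → ℕ)
    (b : ℕ) : Prop :=
  ∃ C e : ℕ, ∃ tm : Turing.FinTM2, ∃ e₀ : tm.Γ tm.k₀ ≃ Bool,
    ∃ acc rej : List (tm.Γ tm.k₁), acc ≠ rej ∧
    ∀ F : I, valid F →
      (yes F → Nonempty (Turing.TM2OutputsInTime tm ((code F).map e₀.symm) (some acc)
        (C * ((code F).length + 1) ^ e * 2 ^ (μ F / b)))) ∧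
      (no F → Nonempty (Turing.TM2OutputsInTime tm ((code F).map e₀.symm) (some rej)
        (C * ((code F).length + 1) ^ e * 2 ^ (μ F / b))))

/-! ### 3-CNF formulas: the statement of the problem -/

/-- the encoding of formulas fixed in the problem -/
def satCode (F : List (List (Bool × ℕ))) : List Bool :=
  F.flatMap (fun c => c.flatMap (fun l => [true, l.1] ++
    (Nat.bits l.2).flatMap (fun x => [true, x]) ++ [false, false]) ++ [false, true])

/-- the number of variables of a formula -/
def satVars (F : List (List (Bool × ℕ))) : ℕ := (F.flatten.map (fun l => l.2)).toFinset.card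

/-- `(ε, b)` admits an exponential separator, as in the problem -/
def SatSeparator (ε : ℚ) (b : ℕ) : Prop :=
  Separator satCode (fun F => F ≠ [] ∧ ∀ c ∈ F, c.length ≤ 3)
    (fun F => ∃ a : ℕ → Bool, ∀ c ∈ F, ∃ l ∈ c, a l.2 = l.1)
    (fun F => ∀ a : ℕ → Bool, ε * (F.length : ℚ) ≤
      ((F.countP (fun c => !(c.any (fun l => a l.2 == l.1))) : ℕ) : ℚ)) satVars b

/-- the statement Q1 of the problem -/
def SatHard : Prop := ∃ ε : ℚ, 0 < ε ∧ ε < 1 ∧ ∃ b : ℕ, 0 < b ∧ ¬ SatSeparator ε b

/-! ### Graphs and vertex deletion -/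

/-- finite graphs -/
abbrev FinGraph : Type := (n : ℕ) × SimpleGraph (Fin n)

/-- the list of the vertices and the list of the edges of a graph -/
abbrev ListGraph : Type := List ℕ × List (ℕ × ℕ)

/-- The vertices are different, the edges are pairs of different vertices, and no edge occurs
twice (in either order). -/
def IsGraph (G : ListGraph) : Prop :=
  G.1.Nodup ∧ (∀ e ∈ G.2, e.1 ≠ e.2 ∧ e.1 ∈ G.1 ∧ e.2 ∈ G.1) ∧
    G.2.Pairwise (fun e f => e ≠ f ∧ e ≠ (f.2, f.1))

/-- graphs of maximum degree at most `D` -/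
def MaxDegree (D : ℕ) (G : ListGraph) : Prop :=
  IsGraph G ∧ ∀ v, (G.2.flatMap (fun e => [e.1, e.2])).count v ≤ D

/-- The graph `G`, without the vertices `v` with `a v = true`, has an induced subgraph isomorphic
to `H`. -/
def Contains (G : ListGraph) (a : ℕ → Bool) (H : FinGraph) : Prop :=
  ∃ f : Fin H.1 → ℕ, Function.Injective f ∧ (∀ i, f i ∈ G.1 ∧ a (f i) = false) ∧
    ∀ i j, H.2.Adj i j ↔ ((f i, f j) ∈ G.2 ∨ (f j, f i) ∈ G.2)

/-- the deletion of the vertices `v` with `a v = true` leaves no induced subgraph isomorphic to a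
member of `FF` -/
def Destroys (FF : Set FinGraph) (G : ListGraph) (a : ℕ → Bool) : Prop :=
  ∀ H ∈ FF, ¬ Contains G a H

/-- the number of vertices `v` of the graph with `a v = true` -/
def deleted (G : ListGraph) (a : ℕ → Bool) : ℕ := (G.1.filter a).length

/-- the code of a list of lists of binary words -/
def wordsCode (G : List (List (List Bool))) : List Bool :=
  G.flatMap (fun c => c.flatMap (fun w => w.flatMap (fun x => [true, x]) ++ [false, false]) ++
    [false, true])

/-- a graph as a list of lists of binary words: the vertices, and the ends of every edge -/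
def graphWords (G : ListGraph) : List (List (List Bool)) :=
  G.1.map Nat.bits :: G.2.map (fun e => [Nat.bits e.1, Nat.bits e.2])

/-- a threshold (in unary) and a graph (in binary) -/
def thresholdCode (I : ℕ × ListGraph) : List Bool :=
  wordsCode ([List.replicate I.1 true] :: graphWords I.2)

/-- Separator for the deletion problem of `FF`: given a graph satisfying `valid` and a threshold
`t`, accept if the deletion of some set of at most `t` vertices destroys all copies of members of
`FF`, reject if all such sets have more than `(1 + ε) t` vertices, in time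
`C (L + 1) ^ e * 2 ^ (n / b)` for `n` vertices. -/
def DeletionSeparator (FF : Set FinGraph) (valid : ListGraph → Prop) (ε : ℚ) (b : ℕ) : Prop :=
  Separator thresholdCode (fun I => valid I.2)
    (fun I => ∃ a : ℕ → Bool, Destroys FF I.2 a ∧ deleted I.2 a ≤ I.1)
    (fun I => ∀ a : ℕ → Bool, Destroys FF I.2 a →
      (1 + ε) * (I.1 : ℚ) < (deleted I.2 a : ℚ))
    (fun I => I.2.1.length) b

/-- the analogue of Q1 for the deletion problem of `FF` -/
def DeletionHard (FF : Set FinGraph) : Prop :=
  ∃ ε : ℚ, 0 < ε ∧ ∃ b : ℕ, 0 < b ∧ ¬ DeletionSeparator FF IsGraph ε b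

/-- the analogue of Q1 for the deletion problem of `FF` in bounded degree -/
def BoundedDegreeDeletionHard (FF : Set FinGraph) : Prop :=
  ∃ D : ℕ, ∃ ε : ℚ, 0 < ε ∧ ∃ b : ℕ, 0 < b ∧ ¬ DeletionSeparator FF (MaxDegree D) ε b

/-- A deterministic machine computes, for every graph, a set `a` of vertices (its indicator
function on the list of the vertices) whose deletion destroys all copies of members of `FF` and
whose size is at most `1 + ε` times the minimum, in time `C (L + 1) ^ e * 2 ^ (n / b)` for `n`
vertices. -/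
def FindsDeletion (FF : Set FinGraph) (ε : ℚ) (b : ℕ) : Prop :=
  ∃ C e : ℕ, ∃ tm : Turing.FinTM2, ∃ e₀ : tm.Γ tm.k₀ ≃ Bool, ∃ e₁ : tm.Γ tm.k₁ ≃ Bool,
    ∀ G : ListGraph, IsGraph G → ∃ a : ℕ → Bool, Destroys FF G a ∧
      (∀ a' : ℕ → Bool, Destroys FF G a' →
        (deleted G a : ℚ) ≤ (1 + ε) * (deleted G a' : ℚ)) ∧
      Nonempty (Turing.TM2OutputsInTime tm ((wordsCode (graphWords G)).map e₀.symm)
        (some ((G.1.map a).map e₁.symm))
        (C * ((wordsCode (graphWords G)).length + 1) ^ e * 2 ^ (G.1.length / b)))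

/-- some pair of parameters has no such machine -/
def DeletionSearchHard (FF : Set FinGraph) : Prop :=
  ∃ ε : ℚ, 0 < ε ∧ ∃ b : ℕ, 0 < b ∧ ¬ FindsDeletion FF ε b

open Pool.Agent.Lib.MP_87d05f_lc in
theorem satHard_iff : SatHard ↔ GapETH := by
  unfold SatHard GapETH
  have h : ∀ ε : ℚ, ∀ b : ℕ, SatSeparator ε b ↔ SepK 3 (fun _ => True) ε b := by
    intro ε b
    constructor
    · rintro ⟨C, e, tm, e₀, acc, rej, hne, h⟩
      exact ⟨C, e, tm, e₀, acc, rej, hne, fun F h1 h2 _ => h F ⟨h1, h2⟩⟩
    · rintro ⟨C, e, tm, e₀, acc, rej, hne, h⟩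
      exact ⟨C, e, tm, e₀, acc, rej, hne, fun F h1 => h F h1.1 h1.2 trivial⟩
  simp only [h]

open Pool.Agent.Lib.MP_87d05f_lc in
theorem deletionSeparator_iff (FF : Set FinGraph) (ε : ℚ) (b : ℕ) :
    DeletionSeparator FF IsGraph ε b ↔ ND.SepT FF ε b := Iff.rfl

open Pool.Agent.Lib.MP_87d05f_lc in
theorem boundedSeparator_iff (FF : Set FinGraph) (D : ℕ) (ε : ℚ) (b : ℕ) :
    DeletionSeparator FF (MaxDegree D) ε b ↔ ND.SepTD FF D ε b := Iff.rfl

open Pool.Agent.Lib.MP_87d05f_lc in
theorem findsDeletion_iff (FF : Set FinGraph) (ε : ℚ) (b : ℕ) :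
    FindsDeletion FF ε b ↔
      GFind ND.enV ND.VGV (ND.goodV FF ε) (fun I => I.1.length) b := by
  constructor
  · rintro ⟨C, e, tm, e₀, e₁, h⟩
    refine ⟨C, e, tm, e₀, e₁, fun G hG => ?_⟩
    obtain ⟨a, ha, ha', hrun⟩ := h G hG
    exact ⟨_, ⟨a, rfl, ha, ha'⟩, hrun⟩
  · rintro ⟨C, e, tm, e₀, e₁, h⟩
    refine ⟨C, e, tm, e₀, e₁, fun G hG => ?_⟩
    obtain ⟨w, ⟨a, rfl, ha, ha'⟩, hrun⟩ := h G hG
    exact ⟨a, ha, ha', hrun⟩

open Pool.Agent.Lib.MP_87d05f_lc in
theorem result (FF : Set FinGraph) (h0 : FF.Nonempty)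
    (h1 : ∀ n : ℕ, ∃ G : FinGraph, n ≤ G.1 ∧ ∀ H ∈ FF, IsEmpty (H.2 ↪g G.2)) :
    (SatHard → DeletionHard FF) ∧ (DeletionHard FF → DeletionSearchHard FF) ∧
    (FF.Finite → DeletionSearchHard FF → SatHard) ∧
    ((∀ H ∈ FF, H.2 ≠ ⊥) → SatHard → BoundedDegreeDeletionHard FF) := by
  have e1 : DeletionHard FF ↔ ND.HardT FF := by
    unfold DeletionHard ND.HardT
    simp only [deletionSeparator_iff]
  have e2 : DeletionSearchHard FF ↔ ND.DelVHard FF := by
    unfold DeletionSearchHard ND.DelVHard
    simp only [findsDeletion_iff]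
  have e3 : BoundedDegreeDeletionHard FF ↔ ND.HardTD FF := by
    unfold BoundedDegreeDeletionHard ND.HardTD
    simp only [boundedSeparator_iff]
  rw [satHard_iff, e1, e2, e3]
  exact ND.main_final FF h0 h1

end Pool.Agent.Results.MP_87d05f_lc.VertexDeletion
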